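import Mathlib

/-!
# CP-semigroups over `ℕ^k` on von Neumann algebras and their dilations

A linear map `A → A` on a von Neumann algebra `A ⊆ B(H)` is represented by a function
`T : B(H) → B(H)` of which only the restriction to `A` matters.
-/

set_option autoImplicit false

open scoped InnerProductSpace ComplexOrder InnerProduct

namespace Pool.Agent.Y325.Dil

section defs

variable {H : Type*} [NormedAddCommGroup H] [InnerProductSpace ℂ H] [CompleteSpace H]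
variable {K : Type*} [NormedAddCommGroup K] [InnerProductSpace ℂ K] [CompleteSpace K]

/-- `T` restricts to a linear map `A → A`. -/
structure IsLinearOn (A : VonNeumannAlgebra H) (T : (H →L[ℂ] H) → (H →L[ℂ] H)) : Prop where
  mem : ∀ a ∈ A, T a ∈ A
  add : ∀ a ∈ A, ∀ b ∈ A, T (a + b) = T a + T b
  smul : ∀ (c : ℂ), ∀ a ∈ A, T (c • a) = c • T a

/-- `T : A → A` is completely positive: `∑ᵢⱼ ⟪ξᵢ, T(aᵢ* aⱼ) ξⱼ⟫ ≥ 0` for all `a₁, …, aₙ ∈ A`,
`ξ₁, …, ξₙ ∈ H`. -/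
def IsCP (A : VonNeumannAlgebra H) (T : (H →L[ℂ] H) → (H →L[ℂ] H)) : Prop :=
  ∀ (n : ℕ) (a : Fin n → H →L[ℂ] H) (ξ : Fin n → H), (∀ i, a i ∈ A) →
    0 ≤ ∑ i, ∑ j, ⟪ξ i, T (star (a i) * a j) (ξ j)⟫_ℂ

/-- `T : A → A` is normal (ultraweakly continuous): every functional `a ↦ ⟪η, T(a) ξ⟫` has the
form `a ↦ ∑ₙ ⟪vₙ, a uₙ⟫` with `∑ ‖uₙ‖² < ∞`, `∑ ‖vₙ‖² < ∞`. -/
def IsNormalOn (A : VonNeumannAlgebra H) (T : (H →L[ℂ] H) → (H →L[ℂ] H)) : Prop :=
  ∀ ξ η : H, ∃ u v : ℕ → H, Summable (fun n => ‖u n‖ ^ 2) ∧ Summable (fun n => ‖v n‖ ^ 2) ∧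
    ∀ a ∈ A, HasSum (fun n => ⟪v n, a (u n)⟫_ℂ) ⟪η, T a ξ⟫_ℂ

/-- `T` is a normal contractive completely positive map on `A`. -/
structure IsNCP (A : VonNeumannAlgebra H) (T : (H →L[ℂ] H) → (H →L[ℂ] H)) : Prop where
  lin : IsLinearOn A T
  cp : IsCP A T
  contractive : ∀ a ∈ A, ‖T a‖ ≤ ‖a‖
  normal : IsNormalOn A T

/-- `T` is a CP-semigroup over `ℕ^k` on `A`. -/
structure IsCPSemigroup {k : ℕ} (A : VonNeumannAlgebra H)
    (T : (Fin k → ℕ) → (H →L[ℂ] H) → (H →L[ℂ] H)) : Prop where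
  ncp : ∀ s, IsNCP A (T s)
  zero : ∀ a ∈ A, T 0 a = a
  add : ∀ s t, ∀ a ∈ A, T (s + t) a = T s (T t a)

/-- `θ` is an E-semigroup over `ℕ^k` on `B`: a CP-semigroup of (not necessarily unital)
*-endomorphisms. -/
structure IsESemigroup {k : ℕ} (B : VonNeumannAlgebra K)
    (θ : (Fin k → ℕ) → (K →L[ℂ] K) → (K →L[ℂ] K)) : Prop where
  semi : IsCPSemigroup B θ
  mul : ∀ s, ∀ x ∈ B, ∀ y ∈ B, θ s (x * y) = θ s x * θ s y
  star : ∀ s, ∀ x ∈ B, θ s (star x) = star (θ s x)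

/-- The operator `V a V*`: the operator `a` of `H`, regarded as an operator of `K ⊇ V H`
vanishing on the orthogonal complement of `V H`. -/
noncomputable def up (V : H →ₗᵢ[ℂ] K) (a : H →L[ℂ] H) : K →L[ℂ] K :=
  V.toContinuousLinearMap ∘L a ∘L V.toContinuousLinearMap†

/-- The operator `V* b V`: the compression of the operator `b` of `K` to `H ≅ V H`. -/
noncomputable def down (V : H →ₗᵢ[ℂ] K) (b : K →L[ℂ] K) : H →L[ℂ] H :=
  V.toContinuousLinearMap† ∘L b ∘L V.toContinuousLinearMap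

/-- The orthogonal projection `V V*` of `K` onto `V H ≅ H`. -/
noncomputable def proj (V : H →ₗᵢ[ℂ] K) : K →L[ℂ] K :=
  V.toContinuousLinearMap ∘L V.toContinuousLinearMap†

/-- `(p, K, B, θ)` is a dilation of `T`, where `H` is embedded in `K` by the isometry `V` and `p`
is the projection onto `V H`: `p ∈ B`, `A = p B p`, `θ` is an E-semigroup on `B` and
`T_s(a) = p θ_s(a) p` for all `a ∈ A = p B p ⊆ B`. -/
structure IsDilation {k : ℕ} (A : VonNeumannAlgebra H)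
    (T : (Fin k → ℕ) → (H →L[ℂ] H) → (H →L[ℂ] H)) (V : H →ₗᵢ[ℂ] K) (B : VonNeumannAlgebra K)
    (θ : (Fin k → ℕ) → (K →L[ℂ] K) → (K →L[ℂ] K)) : Prop where
  proj_mem : proj V ∈ B
  corner : ∀ a : H →L[ℂ] H, a ∈ A ↔ ∃ b ∈ B, down V b = a
  esemi : IsESemigroup B θ
  dil : ∀ s, ∀ a ∈ A, up V (T s a) = proj V * θ s (up V a) * proj V

/-- `T` has a dilation: for some Hilbert space `K ⊇ H`, some von Neumann algebra `B` on `K`
and some E-semigroup `θ` on `B`. -/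
def HasDilation.{u, v} {H : Type v} [NormedAddCommGroup H] [InnerProductSpace ℂ H]
    [CompleteSpace H] {k : ℕ} (A : VonNeumannAlgebra H)
    (T : (Fin k → ℕ) → (H →L[ℂ] H) → (H →L[ℂ] H)) : Prop :=
  ∃ (K : Type u) (_ : NormedAddCommGroup K) (_ : InnerProductSpace ℂ K) (_ : CompleteSpace K)
    (V : H →ₗᵢ[ℂ] K) (B : VonNeumannAlgebra K) (θ : (Fin k → ℕ) → (K →L[ℂ] K) → (K →L[ℂ] K)),
      IsDilation A T V B θ

/-- The semigroup over `ℕ³` generated by `T₀, T₁, T₂`: `T_s = T₀^{s₀} T₁^{s₁} T₂^{s₂}`. -/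
def gen (T : Fin 3 → (H →L[ℂ] H) → (H →L[ℂ] H)) (s : Fin 3 → ℕ) (a : H →L[ℂ] H) : H →L[ℂ] H :=
  (T 0)^[s 0] ((T 1)^[s 1] ((T 2)^[s 2] a))

end defs

end Pool.Agent.Y325.Dil
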