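import Mathlib

/-!
# A frustrated triangle: the algebraic obstruction

`R` is a ring with a proper involution, `θ 0, θ 1, θ 2` are pairwise commuting star preserving
ring endomorphisms (not unital), `e 0, …, e 7` are pairwise orthogonal projections, and the
compressions of `θ c (e j)` to `p = ∑ e i` are prescribed by three stochastic matrices.
-/

set_option autoImplicit false

namespace Pool.Agent.Y325.Dil

variable {R : Type*} [Ring R] [StarRing R] [Algebra ℂ R]

theorem no_go (proper : ∀ x : R, star x * x = 0 → x = 0)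
    (θ : Fin 3 → R → R)
    (hadd : ∀ c x y, θ c (x + y) = θ c x + θ c y)
    (hmul : ∀ c x y, θ c (x * y) = θ c x * θ c y)
    (hstar : ∀ c x, θ c (star x) = star (θ c x))
    (hcomm : ∀ c d x, θ c (θ d x) = θ d (θ c x))
    (e : Fin 8 → R) (he : ∀ i, star (e i) = e i)
    (hee : ∀ i j, e i * e j = if i = j then e i else 0)
    (P : Fin 3 → Fin 8 → Fin 8 → ℂ)
    (hP : ∀ c i, ∑ j, P c i j = 1)
    (hT : ∀ c j, (∑ i, e i) * θ c (e j) * (∑ i, e i) = ∑ i, P c i j • e i)
    (h1 : ∀ j, j ≠ 1 → j ≠ 2 → P 0 0 j = 0) (h2 : ∀ j, j ≠ 1 → j ≠ 2 → P 1 0 j = 0)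
    (h3 : ∀ j, j ≠ 3 → j ≠ 4 → P 2 0 j = 0)
    (h10 : P 1 1 5 = 1) (h11 : P 1 2 5 = 0) (h12 : P 0 1 5 = 0) (h13 : P 0 2 5 = 1)
    (h14 : P 2 1 5 = 1) (h15 : P 2 2 5 = 0) (h16 : P 0 3 5 = 1) (h17 : P 0 4 5 = 0)
    (h18 : P 1 3 5 = 1) (h19 : P 1 4 5 = 0)
    (hne : P 1 0 1 • e 0 ≠ 0) : False := by
  have h0 : ∀ c, θ c 0 = 0 := fun c => by
    have := hadd c 0 0
    simpa using this
  have hsum : ∀ c (f : Fin 8 → R), θ c (∑ i, f i) = ∑ i, θ c (f i) := by
    intro c f
    have : ∀ s : Finset (Fin 8), θ c (∑ i ∈ s, f i) = ∑ i ∈ s, θ c (f i) := by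
      intro s
      induction s using Finset.induction_on with
      | empty => simp [h0]
      | insert a s ha ih => rw [Finset.sum_insert ha, Finset.sum_insert ha, hadd, ih]
    exact this _
  set p : R := ∑ i, e i with hp
  have hpe : ∀ i, p * e i = e i := by
    intro i
    rw [hp, Finset.sum_mul, Finset.sum_eq_single i]
    · rw [hee]; simp
    · intro b _ hb; rw [hee]; simp [hb]
    · simp
  have hep : ∀ i, e i * p = e i := by
    intro i
    rw [hp, Finset.mul_sum, Finset.sum_eq_single i]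
    · rw [hee]; simp
    · intro b _ hb; rw [hee]; simp [Ne.symm hb]
    · simp
  have hpp : p * p = p := by
    conv_lhs => rw [hp]
    rw [Finset.sum_mul]
    exact Finset.sum_congr rfl fun i _ => hep i
  have hps : star p = p := by
    rw [hp, star_sum]; exact Finset.sum_congr rfl fun i _ => he i
  clear_value p
  -- compressions
  have hPp : ∀ c, p * θ c p * p = p := by
    intro c
    have : θ c p = ∑ j, θ c (e j) := by rw [hp]; exact hsum c e
    rw [this, Finset.mul_sum, Finset.sum_mul]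
    calc ∑ j, p * θ c (e j) * p = ∑ j, ∑ i, P c i j • e i :=
          Finset.sum_congr rfl fun j _ => hT c j
      _ = ∑ i, ∑ j, P c i j • e i := Finset.sum_comm
      _ = ∑ i, e i := by
          refine Finset.sum_congr rfl fun i _ => ?_
          rw [← Finset.sum_smul, hP, one_smul]
      _ = p := hp.symm
  have hθp : ∀ c, θ c p * θ c p = θ c p := fun c => by rw [← hmul, hpp]
  have hθps : ∀ c, star (θ c p) = θ c p := fun c => by rw [← hstar, hps]
  have hdom : ∀ c, θ c p * p = p := by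
    intro c
    have : star (θ c p * p - p) * (θ c p * p - p) = 0 := by
      rw [star_sub, star_mul, hθps, hps]
      have e1 : (p * θ c p - p) * (θ c p * p - p)
          = p * (θ c p * θ c p) * p - p * θ c p * p - p * θ c p * p + p * p := by noncomm_ring
      rw [e1, hθp, hPp, hpp]
      abel
    exact sub_eq_zero.1 (proper _ this)
  have hdome : ∀ c i, θ c p * e i = e i := by
    intro c i
    calc θ c p * e i = θ c p * (p * e i) := by rw [hpe]
      _ = θ c p * p * e i := by rw [mul_assoc]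
      _ = e i := by rw [hdom, hpe]
  have hcomp : ∀ c i j, e i * θ c (e j) * e i = P c i j • e i := by
    intro c i j
    calc e i * θ c (e j) * e i = (e i * p) * θ c (e j) * (p * e i) := by rw [hpe, hep]
      _ = e i * (p * θ c (e j) * p) * e i := by noncomm_ring
      _ = e i * (∑ k, P c k j • e k) * e i := by rw [hT]
      _ = P c i j • e i := by
          rw [Finset.mul_sum, Finset.sum_mul, Finset.sum_eq_single i]
          · rw [mul_smul_comm, smul_mul_assoc, hee]; simp [hee]
          · intro b _ hb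
            rw [mul_smul_comm, smul_mul_assoc, hee]; simp [Ne.symm hb]
          · simp
  have hθe : ∀ c j, θ c (e j) * θ c (e j) = θ c (e j) := fun c j => by
    rw [← hmul, hee]; simp
  have hθes : ∀ c j, star (θ c (e j)) = θ c (e j) := fun c j => by rw [← hstar, he]
  have hsq : ∀ c i j, star (θ c (e j) * e i) * (θ c (e j) * e i) = P c i j • e i := by
    intro c i j
    rw [star_mul, hθes, he, ← hcomp]
    calc e i * θ c (e j) * (θ c (e j) * e i) = e i * (θ c (e j) * θ c (e j)) * e i := by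
          noncomm_ring
      _ = _ := by rw [hθe]
  have hzero : ∀ c i j, P c i j = 0 → θ c (e j) * e i = 0 := by
    intro c i j h
    apply proper
    rw [hsq, h, zero_smul]
  have hone : ∀ c i j, P c i j = 1 → θ c (e j) * e i = e i := by
    intro c i j h
    have : star (θ c (e j) * e i - e i) * (θ c (e j) * e i - e i) = 0 := by
      have e1 : star (θ c (e j) * e i - e i) * (θ c (e j) * e i - e i)
          = star (θ c (e j) * e i) * (θ c (e j) * e i) - e i * θ c (e j) * e i
            - e i * θ c (e j) * e i + e i * e i := by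
        rw [star_sub, star_mul, hθes, he]; noncomm_ring
      rw [e1, hsq, hcomp, hee, h]; simp
    exact sub_eq_zero.1 (proper _ this)
  have hsplit : ∀ c i, ∑ j, θ c (e j) * e i = e i := by
    intro c i
    rw [← Finset.sum_mul, ← hsum, ← hp]; exact hdome c i
  have s0 : θ 0 (e 1) * e 0 + θ 0 (e 2) * e 0 = e 0 := by
    have hs := hsplit 0 0
    rw [← Finset.sum_subset (Finset.subset_univ {1, 2})] at hs
    · rwa [Finset.sum_pair (by decide)] at hs
    · intro j _ hj
      simp only [Finset.mem_insert, Finset.mem_singleton, not_or] at hj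
      exact hzero _ _ _ (h1 j hj.1 hj.2)
  have s1 : θ 1 (e 1) * e 0 + θ 1 (e 2) * e 0 = e 0 := by
    have hs := hsplit 1 0
    rw [← Finset.sum_subset (Finset.subset_univ {1, 2})] at hs
    · rwa [Finset.sum_pair (by decide)] at hs
    · intro j _ hj
      simp only [Finset.mem_insert, Finset.mem_singleton, not_or] at hj
      exact hzero _ _ _ (h2 j hj.1 hj.2)
  have s2 : θ 2 (e 3) * e 0 + θ 2 (e 4) * e 0 = e 0 := by
    have hs := hsplit 2 0
    rw [← Finset.sum_subset (Finset.subset_univ {3, 4})] at hs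
    · rwa [Finset.sum_pair (by decide)] at hs
    · intro j _ hj
      simp only [Finset.mem_insert, Finset.mem_singleton, not_or] at hj
      exact hzero _ _ _ (h3 j hj.1 hj.2)
  -- two step computations
  have two : ∀ c d i j, θ c (e i) * e 0 + θ c (e j) * e 0 = e 0 →
      θ c (θ d (e 5)) * e 0 = θ c (θ d (e 5) * e i) * e 0 + θ c (θ d (e 5) * e j) * e 0 := by
    intro c d i j h
    calc θ c (θ d (e 5)) * e 0 = θ c (θ d (e 5)) * (θ c (e i) * e 0 + θ c (e j) * e 0) := by
          rw [h]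
      _ = _ := by rw [hmul, hmul]; noncomm_ring
  have t01 : θ 0 (θ 1 (e 5)) * e 0 = θ 0 (e 1) * e 0 := by
    rw [two 0 1 1 2 s0, hone 1 1 5 h10, hzero 1 2 5 h11, h0]; simp
  have t10 : θ 1 (θ 0 (e 5)) * e 0 = θ 1 (e 2) * e 0 := by
    rw [two 1 0 1 2 s1, hzero 0 1 5 h12, hone 0 2 5 h13, h0]; simp
  have t02 : θ 0 (θ 2 (e 5)) * e 0 = θ 0 (e 1) * e 0 := by
    rw [two 0 2 1 2 s0, hone 2 1 5 h14, hzero 2 2 5 h15, h0]; simp
  have t20 : θ 2 (θ 0 (e 5)) * e 0 = θ 2 (e 3) * e 0 := by
    rw [two 2 0 3 4 s2, hone 0 3 5 h16, hzero 0 4 5 h17, h0]; simp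
  have t12 : θ 1 (θ 2 (e 5)) * e 0 = θ 1 (e 1) * e 0 := by
    rw [two 1 2 1 2 s1, hone 2 1 5 h14, hzero 2 2 5 h15, h0]; simp
  have t21 : θ 2 (θ 1 (e 5)) * e 0 = θ 2 (e 3) * e 0 := by
    rw [two 2 1 3 4 s2, hone 1 3 5 h18, hzero 1 4 5 h19, h0]; simp
  have key : θ 1 (e 2) * e 0 = θ 1 (e 1) * e 0 := by
    rw [← t10, hcomm 1 0, t01, ← t02, hcomm 0 2, t20, ← t21, hcomm 2 1, t12]
  have hw : θ 1 (e 1) * e 0 = 0 := by
    calc θ 1 (e 1) * e 0 = θ 1 (e 1) * (θ 1 (e 1) * e 0) := by rw [← mul_assoc, hθe]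
      _ = θ 1 (e 1) * (θ 1 (e 2) * e 0) := by rw [key]
      _ = θ 1 (e 1 * e 2) * e 0 := by rw [hmul, mul_assoc]
      _ = 0 := by rw [hee]; simp [h0]
  apply hne
  rw [← hsq 1 0 1, hw]; simp

end Pool.Agent.Y325.Dil
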