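import Mathlib
import Pool.Agent.Y325.Dil.Defs
import Pool.Agent.Y325.Dil.NoGo

/-!
# The 8-state example
-/

set_option autoImplicit false

open scoped InnerProductSpace ComplexOrder InnerProduct

namespace Pool.Agent.Y325.Dil

/-- the Hilbert space -/
abbrev HH := EuclideanSpace ℂ (Fin 8)

/-- matrices as operators -/
noncomputable abbrev op : Matrix (Fin 8) (Fin 8) ℂ ≃⋆ₐ[ℂ] (HH →L[ℂ] HH) :=
  Matrix.toEuclideanCLM (n := Fin 8) (𝕜 := ℂ)

/-- diagonal operators -/
noncomputable def D (f : Fin 8 → ℂ) : HH →L[ℂ] HH := op (Matrix.diagonal f)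

theorem D_apply (f : Fin 8 → ℂ) (v : HH) (i : Fin 8) : (D f v) i = f i * v i := by
  have : (D f v) i = (Matrix.diagonal f).mulVec (WithLp.ofLp v) i := rfl
  rw [this, Matrix.mulVec_diagonal]

theorem D_mul (f g : Fin 8 → ℂ) : D f * D g = D (f * g) := by
  ext v i
  show (D f (D g v)) i = _
  rw [D_apply, D_apply, D_apply]; simp [mul_assoc]

theorem D_add (f g : Fin 8 → ℂ) : D f + D g = D (f + g) := by
  ext v i
  show (D f v) i + (D g v) i = _
  rw [D_apply, D_apply, D_apply]; simp [add_mul]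

theorem D_smul (c : ℂ) (f : Fin 8 → ℂ) : c • D f = D (c • f) := by
  ext v i
  show c • (D f v) i = _
  rw [D_apply, D_apply]; simp [mul_assoc]

theorem D_one : D 1 = 1 := by
  ext v i
  rw [D_apply]; simp

theorem D_zero : D 0 = 0 := by
  ext v i
  rw [D_apply]; simp

theorem D_star (f : Fin 8 → ℂ) : star (D f) = D (star f) := by
  unfold D
  rw [← map_star]
  congr 1
  exact Matrix.diagonal_conjTranspose f

theorem D_sum (f : Fin 8 → (Fin 8 → ℂ)) : ∑ i, D (f i) = D (∑ i, f i) := by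
  ext v i
  rw [D_apply]
  have : ((∑ i, D (f i)) v) i = ∑ k, (D (f k) v) i := by simp
  rw [this]
  simp [D_apply, Finset.sum_mul]

/-- basis vector -/
noncomputable def bv (j : Fin 8) : HH := EuclideanSpace.single j 1

theorem D_bv (f : Fin 8 → ℂ) (j : Fin 8) : D f (bv j) = f j • bv j := by
  ext i
  rw [D_apply]
  by_cases h : i = j
  · subst h; simp [bv]
  · simp [bv, h]

theorem inner_bv (v : HH) (j : Fin 8) : ⟪bv j, v⟫_ℂ = v j := by
  rw [bv, EuclideanSpace.inner_single_left]; simp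

theorem norm_bv (j : Fin 8) : ‖bv j‖ = 1 := by simp [bv]

/-- the coordinates of a diagonal operator -/
noncomputable def dg (x : HH →L[ℂ] HH) (j : Fin 8) : ℂ := ⟪bv j, x (bv j)⟫_ℂ

theorem dg_D (f : Fin 8 → ℂ) : dg (D f) = f := by
  ext j
  rw [dg, D_bv, inner_smul_right, inner_bv]; simp [bv]

theorem dg_le (x : HH →L[ℂ] HH) (j : Fin 8) : ‖dg x j‖ ≤ ‖x‖ := by
  calc ‖dg x j‖ ≤ ‖bv j‖ * ‖x (bv j)‖ := norm_inner_le_norm _ _
    _ ≤ ‖bv j‖ * (‖x‖ * ‖bv j‖) := by gcongr; exact x.le_opNorm _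
    _ = ‖x‖ := by rw [norm_bv]; ring

theorem D_norm_le (f : Fin 8 → ℂ) (C : ℝ) (hC : 0 ≤ C) (h : ∀ i, ‖f i‖ ≤ C) : ‖D f‖ ≤ C := by
  refine ContinuousLinearMap.opNorm_le_bound _ hC fun v => ?_
  rw [← Real.sqrt_sq (norm_nonneg (D f v)), ← Real.sqrt_sq (mul_nonneg hC (norm_nonneg v))]
  apply Real.sqrt_le_sqrt
  rw [mul_pow, EuclideanSpace.norm_sq_eq, EuclideanSpace.norm_sq_eq, Finset.mul_sum]
  refine Finset.sum_le_sum fun i _ => ?_
  rw [D_apply, norm_mul, mul_pow]
  gcongr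
  exact h i

/-- The diagonal von Neumann algebra on `ℂ⁸`. -/
noncomputable def AD : VonNeumannAlgebra HH where
  toStarSubalgebra := StarSubalgebra.centralizer ℂ (Set.range D)
  centralizer_centralizer' := by
    show Set.centralizer (Set.centralizer (Set.centralizer (Set.range D ∪ star (Set.range D))))
      = Set.centralizer (Set.range D ∪ star (Set.range D))
    exact Set.centralizer_centralizer_centralizer _

theorem mem_AD' (x : HH →L[ℂ] HH) :
    x ∈ AD.toStarSubalgebra ↔ ∀ f, D f * x = x * D f := by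
  show x ∈ StarSubalgebra.centralizer ℂ (Set.range D) ↔ _
  rw [StarSubalgebra.mem_centralizer_iff]
  constructor
  · intro h f
    exact (h (D f) ⟨f, rfl⟩).1
  · rintro h _ ⟨f, rfl⟩
    refine ⟨h f, ?_⟩
    rw [D_star]; exact h _

theorem D_mem (f : Fin 8 → ℂ) : D f ∈ AD.toStarSubalgebra := by
  rw [mem_AD']
  intro g
  rw [D_mul, D_mul, mul_comm]

theorem eq_D (x : HH →L[ℂ] HH) (hx : x ∈ AD.toStarSubalgebra) : x = D (dg x) := by
  rw [mem_AD'] at hx
  have h1 : ∀ j, x (bv j) = dg x j • bv j := by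
    intro j
    have h2 : D (Pi.single j 1) (bv j) = bv j := by rw [D_bv]; simp
    have h3 : x (bv j) = D (Pi.single j 1) (x (bv j)) := by
      have := congrArg (fun y : HH →L[ℂ] HH => y (bv j)) (hx (Pi.single j 1))
      simp only [mul_apply_eq_comp] at this
      rw [h2] at this
      exact this.symm
    ext i
    rw [h3, D_apply]
    by_cases h : i = j
    · subst h; rw [dg, inner_bv]; simp [bv]
    · simp [bv, h]
  have h4 : (x : HH →ₗ[ℂ] HH) = (D (dg x) : HH →ₗ[ℂ] HH) := by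
    refine (EuclideanSpace.basisFun (Fin 8) ℂ).toBasis.ext fun j => ?_
    have : (EuclideanSpace.basisFun (Fin 8) ℂ).toBasis j = bv j := by simp [bv]
    rw [this]
    show x (bv j) = D (dg x) (bv j)
    rw [h1, D_bv]
  exact ContinuousLinearMap.coe_injective h4

theorem mem_AD (x : HH →L[ℂ] HH) : x ∈ AD ↔ x ∈ AD.toStarSubalgebra := Iff.rfl

theorem D_mem' (f : Fin 8 → ℂ) : D f ∈ AD := D_mem f

theorem eq_D' (x : HH →L[ℂ] HH) (hx : x ∈ AD) : D (dg x) = x := (eq_D x hx).symm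

theorem dg_add (x y : HH →L[ℂ] HH) : dg (x + y) = dg x + dg y := by
  ext j; simp [dg]

theorem dg_smul (c : ℂ) (y : HH →L[ℂ] HH) : dg (c • y) = c • dg y := by
  ext j; simp [dg]

/-- the map of a matrix -/
noncomputable def MM (Q : Matrix (Fin 8) (Fin 8) ℂ) (x : HH →L[ℂ] HH) : HH →L[ℂ] HH :=
  D (Q.mulVec (dg x))

theorem MM_D (Q : Matrix (Fin 8) (Fin 8) ℂ) (f : Fin 8 → ℂ) : MM Q (D f) = D (Q.mulVec f) := by
  rw [MM, dg_D]

theorem MM_one (x : HH →L[ℂ] HH) (hx : x ∈ AD) : MM 1 x = x := by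
  rw [MM, Matrix.one_mulVec, eq_D' x hx]

theorem MM_mul (Q Q' : Matrix (Fin 8) (Fin 8) ℂ) (x : HH →L[ℂ] HH) :
    MM (Q * Q') x = MM Q (MM Q' x) := by
  rw [MM, MM, MM, dg_D, Matrix.mulVec_mulVec]

theorem MM_iter (Q : Matrix (Fin 8) (Fin 8) ℂ) (n : ℕ) (x : HH →L[ℂ] HH) (hx : x ∈ AD) :
    (MM Q)^[n] x = MM (Q ^ n) x := by
  induction n generalizing x with
  | zero => rw [pow_zero, MM_one x hx]; rfl
  | succ n ih => rw [Function.iterate_succ_apply, ih (MM Q x) (D_mem' _), ← MM_mul, ← pow_succ]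

theorem MM_lin (Q : Matrix (Fin 8) (Fin 8) ℂ) : IsLinearOn AD (MM Q) := by
  refine ⟨fun a _ => D_mem' _, fun a _ b _ => ?_, fun c a _ => ?_⟩
  · rw [MM, dg_add, Matrix.mulVec_add, ← D_add]; rfl
  · rw [MM, dg_smul, Matrix.mulVec_smul, ← D_smul]; rfl

/-- stochastic matrices -/
structure Stoch (Q : Matrix (Fin 8) (Fin 8) ℂ) : Prop where
  nn : ∀ i j, 0 ≤ Q i j
  row : ∀ i, ∑ j, Q i j = 1

theorem Stoch.one : Stoch 1 :=
  ⟨fun i j => by by_cases h : i = j <;> simp [Matrix.one_apply, h], fun i => by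
    simp [Matrix.one_apply]⟩

theorem Stoch.mul {Q Q' : Matrix (Fin 8) (Fin 8) ℂ} (h : Stoch Q) (h' : Stoch Q') :
    Stoch (Q * Q') := by
  refine ⟨fun i j => ?_, fun i => ?_⟩
  · rw [Matrix.mul_apply]
    exact Finset.sum_nonneg fun k _ => mul_nonneg (h.nn _ _) (h'.nn _ _)
  · simp only [Matrix.mul_apply]
    rw [Finset.sum_comm]
    simp only [← Finset.mul_sum, h'.row, mul_one, h.row]

theorem Stoch.pow {Q : Matrix (Fin 8) (Fin 8) ℂ} (h : Stoch Q) (n : ℕ) : Stoch (Q ^ n) := by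
  induction n with
  | zero => rw [pow_zero]; exact Stoch.one
  | succ n ih => rw [pow_succ]; exact ih.mul h

theorem inner_D (η ξ : HH) (f : Fin 8 → ℂ) :
    ⟪η, D f ξ⟫_ℂ = ∑ i, (starRingEnd ℂ) (η i) * (f i * ξ i) := by
  rw [PiLp.inner_apply]
  refine Finset.sum_congr rfl fun i _ => ?_
  rw [D_apply]
  simp [mul_comm]

theorem Stoch.ncp {Q : Matrix (Fin 8) (Fin 8) ℂ} (h : Stoch Q) : IsNCP AD (MM Q) := by
  refine ⟨MM_lin Q, ?_, ?_, ?_⟩
  · intro n a ξ ha
    have h1 : ∀ k l, ⟪ξ k, MM Q (star (a k) * a l) (ξ l)⟫_ℂ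
        = ∑ i, ∑ j, Q i j * ((starRingEnd ℂ) (ξ k i * dg (a k) j) * (ξ l i * dg (a l) j)) := by
      intro k l
      have h2 : star (a k) * a l = D (star (dg (a k)) * dg (a l)) := by
        conv_lhs => rw [← eq_D' (a k) (ha k), ← eq_D' (a l) (ha l)]
        rw [D_star, D_mul]
      rw [h2, MM_D, inner_D]
      refine Finset.sum_congr rfl fun i _ => ?_
      rw [Matrix.mulVec, dotProduct, Finset.sum_mul, Finset.mul_sum]
      refine Finset.sum_congr rfl fun j _ => ?_
      simp only [Pi.mul_apply, Pi.star_apply, map_mul, RCLike.star_def]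
      ring
    simp only [h1]
    have h3 : ∑ k, ∑ l, ∑ i, ∑ j, Q i j * ((starRingEnd ℂ) (ξ k i * dg (a k) j)
          * (ξ l i * dg (a l) j))
        = ∑ i, ∑ j, Q i j * (star (∑ k, ξ k i * dg (a k) j) * (∑ l, ξ l i * dg (a l) j)) := by
      have h4 : ∀ k : Fin n, ∑ l, ∑ i, ∑ j, Q i j * ((starRingEnd ℂ) (ξ k i * dg (a k) j)
          * (ξ l i * dg (a l) j))
          = ∑ i, ∑ j, Q i j * ((starRingEnd ℂ) (ξ k i * dg (a k) j)
          * ∑ l, (ξ l i * dg (a l) j)) := by
        intro k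
        rw [Finset.sum_comm]
        refine Finset.sum_congr rfl fun i _ => ?_
        rw [Finset.sum_comm]
        refine Finset.sum_congr rfl fun j _ => ?_
        rw [Finset.mul_sum, Finset.mul_sum]
      simp only [h4]
      rw [Finset.sum_comm]
      refine Finset.sum_congr rfl fun i _ => ?_
      rw [Finset.sum_comm]
      refine Finset.sum_congr rfl fun j _ => ?_
      rw [← Finset.mul_sum, ← Finset.sum_mul, star_sum]
      rfl
    rw [h3]
    refine Finset.sum_nonneg fun i _ => Finset.sum_nonneg fun j _ => ?_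
    exact mul_nonneg (h.nn i j) (star_mul_self_nonneg _)
  · intro a _
    refine D_norm_le _ _ (norm_nonneg _) fun i => ?_
    rw [Matrix.mulVec, dotProduct]
    calc ‖∑ j, Q i j * dg a j‖ ≤ ∑ j, ‖Q i j * dg a j‖ := norm_sum_le _ _
      _ ≤ ∑ j, ‖Q i j‖ * ‖a‖ := by
          refine Finset.sum_le_sum fun j _ => ?_
          rw [norm_mul]
          gcongr
          exact dg_le _ _
      _ = (∑ j, ‖Q i j‖) * ‖a‖ := by rw [Finset.sum_mul]
      _ = ‖a‖ := by
          have h5 : ((∑ j, ‖Q i j‖ : ℝ) : ℂ) = 1 := by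
            rw [← h.row i, Complex.ofReal_sum]
            refine Finset.sum_congr rfl fun j _ => ?_
            exact RCLike.norm_of_nonneg' (h.nn i j)
          have h6 : (∑ j, ‖Q i j‖ : ℝ) = 1 := by exact_mod_cast h5
          rw [h6, one_mul]
  · intro ξ η
    refine ⟨fun n => if hn : n < 8 then bv ⟨n, hn⟩ else 0,
      fun n => if hn : n < 8 then
        (starRingEnd ℂ (∑ i, (starRingEnd ℂ) (η i) * (Q i ⟨n, hn⟩ * ξ i))) • bv ⟨n, hn⟩ else 0,
      ?_, ?_, ?_⟩
    · refine summable_of_ne_finset_zero (s := Finset.range 8) fun n hn => ?_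
      rw [Finset.mem_range] at hn
      simp [hn]
    · refine summable_of_ne_finset_zero (s := Finset.range 8) fun n hn => ?_
      rw [Finset.mem_range] at hn
      simp [hn]
    · intro a ha
      have h1 : ⟪η, MM Q a ξ⟫_ℂ
          = ∑ n ∈ Finset.range 8, ⟪(if hn : n < 8 then
        (starRingEnd ℂ (∑ i, (starRingEnd ℂ) (η i) * (Q i ⟨n, hn⟩ * ξ i))) • bv ⟨n, hn⟩ else 0 : HH),
            a (if hn : n < 8 then bv ⟨n, hn⟩ else 0)⟫_ℂ := by
        rw [Finset.sum_range]
        simp only [Fin.is_lt, dite_true, Fin.eta]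
        rw [MM, inner_D]
        have h2 : ∀ j : Fin 8, a (bv j) = dg a j • bv j := by
          intro j
          conv_lhs => rw [← eq_D' a ha]
          exact D_bv _ _
        simp only [h2, inner_smul_left, inner_smul_right, Complex.conj_conj]
        have h3 : ∀ j : Fin 8, ⟪bv j, bv j⟫_ℂ = 1 := fun j => by
          rw [inner_self_eq_norm_sq_to_K, norm_bv]; simp
        simp only [h3, mul_one, Matrix.mulVec, dotProduct, Finset.sum_mul, Finset.mul_sum]
        rw [Finset.sum_comm]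
        refine Finset.sum_congr rfl fun j _ => Finset.sum_congr rfl fun i _ => ?_
        ring
      rw [h1]
      refine hasSum_sum_of_ne_finset_zero fun n hn => ?_
      rw [Finset.mem_range] at hn
      simp [hn]

end Pool.Agent.Y325.Dil
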