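import Mathlib
import Pool.Agent.Y325.Dil.Example

/-!
# The three commuting stochastic matrices and the absence of dilations
-/

set_option autoImplicit false

open scoped InnerProductSpace ComplexOrder InnerProduct

namespace Pool.Agent.Y325.Dil

/-- transition rows: `row a b` puts mass `1/2` on `a` and on `b`. -/
noncomputable def row2 (a b : Fin 8) (j : Fin 8) : ℂ :=
  (if j = a then 1 / 2 else 0) + (if j = b then 1 / 2 else 0)

/-- the targets of the three kernels: colour `c`, state `i`, two targets -/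
def tgt : Fin 3 → Fin 8 → Fin 8 × Fin 8
  | 0 => ![(1, 2), (6, 6), (5, 5), (5, 5), (6, 6), (7, 7), (7, 7), (7, 7)]
  | 1 => ![(1, 2), (5, 5), (6, 6), (5, 5), (6, 6), (7, 7), (7, 7), (7, 7)]
  | 2 => ![(3, 4), (5, 5), (6, 6), (7, 7), (7, 7), (7, 7), (7, 7), (7, 7)]

/-- the three stochastic matrices -/
noncomputable def PP (c : Fin 3) : Matrix (Fin 8) (Fin 8) ℂ :=
  Matrix.of fun i j => row2 (tgt c i).1 (tgt c i).2 j

theorem PP_apply (c : Fin 3) (i j : Fin 8) : PP c i j = row2 (tgt c i).1 (tgt c i).2 j := rfl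

theorem row2_sum (a b : Fin 8) : ∑ j, row2 a b j = 1 := by
  simp only [row2, Finset.sum_add_distrib, Finset.sum_ite_eq', Finset.mem_univ, if_true]
  norm_num

theorem row2_nn (a b j : Fin 8) : 0 ≤ row2 a b j := by
  unfold row2
  have h : (0 : ℂ) ≤ 1 / 2 := by
    have h1 : (0 : ℂ) ≤ ((1 / 2 : ℝ) : ℂ) := Complex.zero_le_real.2 (by norm_num)
    push_cast at h1
    exact h1
  refine add_nonneg ?_ ?_
  · split_ifs <;> [exact h; exact le_rfl]
  · split_ifs <;> [exact h; exact le_rfl]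

theorem PP_stoch (c : Fin 3) : Stoch (PP c) :=
  ⟨fun _ _ => row2_nn _ _ _, fun i => by simp only [PP_apply]; exact row2_sum _ _⟩

theorem PP_mul (c d : Fin 3) (i j : Fin 8) : (PP c * PP d) i j
    = (1 / 2) * PP d (tgt c i).1 j + (1 / 2) * PP d (tgt c i).2 j := by
  rw [Matrix.mul_apply]
  simp only [PP_apply c, row2, add_mul, Finset.sum_add_distrib, ite_mul, zero_mul,
    Finset.sum_ite_eq', Finset.mem_univ, if_true]

theorem PP_comm' (c d : Fin 3) (i j : Fin 8) : (PP c * PP d) i j = (PP d * PP c) i j := by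
  rw [PP_mul, PP_mul]
  simp only [PP_apply]
  fin_cases c <;> fin_cases d <;> fin_cases i <;> first | rfl | skip
  all_goals simp only [tgt, row2, Fin.zero_eta, Matrix.cons_val]
  all_goals first | done | ring_nf

theorem PP_comm (c d : Fin 3) : PP c * PP d = PP d * PP c := by
  ext i j
  exact PP_comm' c d i j

/-- the three maps -/
noncomputable def TT (c : Fin 3) : (HH →L[ℂ] HH) → (HH →L[ℂ] HH) := MM (PP c)

theorem TT_one (c : Fin 3) : TT c 1 = 1 := by
  rw [← D_one, TT, MM_D]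
  congr 1
  ext i
  rw [Matrix.mulVec, dotProduct]
  simp only [Pi.one_apply, mul_one]
  exact (PP_stoch c).row i

theorem TT_comm (c d : Fin 3) (x : HH →L[ℂ] HH) : TT c (TT d x) = TT d (TT c x) := by
  rw [TT, TT, ← MM_mul, ← MM_mul, PP_comm]

/-- the product matrix -/
noncomputable def QQ (s : Fin 3 → ℕ) : Matrix (Fin 8) (Fin 8) ℂ :=
  PP 0 ^ s 0 * (PP 1 ^ s 1 * PP 2 ^ s 2)

theorem gen_TT (s : Fin 3 → ℕ) (x : HH →L[ℂ] HH) (hx : x ∈ AD) :
    gen TT s x = MM (QQ s) x := by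
  have h1 : ∀ Q y, MM Q y ∈ AD := fun Q y => D_mem' _
  rw [gen, QQ, TT, TT, TT, MM_iter _ _ x hx, MM_iter _ _ _ (h1 _ _), MM_iter _ _ _ (h1 _ _),
    ← MM_mul, ← MM_mul, mul_assoc]

theorem QQ_stoch (s : Fin 3 → ℕ) : Stoch (QQ s) :=
  ((PP_stoch 0).pow _).mul (((PP_stoch 1).pow _).mul ((PP_stoch 2).pow _))

theorem QQ_add (s t : Fin 3 → ℕ) : QQ (s + t) = QQ s * QQ t := by
  have c01 : Commute (PP 0) (PP 1) := PP_comm 0 1
  have c02 : Commute (PP 0) (PP 2) := PP_comm 0 2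
  have c12 : Commute (PP 1) (PP 2) := PP_comm 1 2
  simp only [QQ, Pi.add_apply, pow_add]
  have e1 : PP 1 ^ s 1 * PP 0 ^ t 0 = PP 0 ^ t 0 * PP 1 ^ s 1 :=
    (c01.symm.pow_pow _ _)
  have e2 : PP 2 ^ s 2 * PP 0 ^ t 0 = PP 0 ^ t 0 * PP 2 ^ s 2 :=
    (c02.symm.pow_pow _ _)
  have e3 : PP 2 ^ s 2 * PP 1 ^ t 1 = PP 1 ^ t 1 * PP 2 ^ s 2 :=
    (c12.symm.pow_pow _ _)
  calc PP 0 ^ s 0 * PP 0 ^ t 0 * (PP 1 ^ s 1 * PP 1 ^ t 1 * (PP 2 ^ s 2 * PP 2 ^ t 2))
      = PP 0 ^ s 0 * (PP 0 ^ t 0 * PP 1 ^ s 1) * (PP 1 ^ t 1 * PP 2 ^ s 2) * PP 2 ^ t 2 := by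
        simp only [mul_assoc]
    _ = PP 0 ^ s 0 * (PP 1 ^ s 1 * PP 0 ^ t 0) * (PP 2 ^ s 2 * PP 1 ^ t 1) * PP 2 ^ t 2 := by
        rw [e1, e3]
    _ = PP 0 ^ s 0 * PP 1 ^ s 1 * (PP 0 ^ t 0 * PP 2 ^ s 2) * PP 1 ^ t 1 * PP 2 ^ t 2 := by
        simp only [mul_assoc]
    _ = PP 0 ^ s 0 * PP 1 ^ s 1 * (PP 2 ^ s 2 * PP 0 ^ t 0) * PP 1 ^ t 1 * PP 2 ^ t 2 := by
        rw [e2]
    _ = _ := by simp only [mul_assoc]

theorem IsNCP.congr {T T' : (HH →L[ℂ] HH) → (HH →L[ℂ] HH)} (h : IsNCP AD T)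
    (h' : ∀ a ∈ AD, T' a = T a) : IsNCP AD T' := by
  refine ⟨⟨fun a ha => ?_, fun a ha b hb => ?_, fun c a ha => ?_⟩, fun n a ξ ha => ?_,
    fun a ha => ?_, fun ξ η => ?_⟩
  · rw [h' a ha]; exact h.lin.mem a ha
  · rw [h' a ha, h' b hb, h' _ (add_mem ha hb)]; exact h.lin.add a ha b hb
  · have hc : c • a ∈ AD := AD.toStarSubalgebra.smul_mem ha c
    rw [h' a ha, h' _ hc]; exact h.lin.smul c a ha
  · have hm : ∀ i j, T' (star (a i) * a j) = T (star (a i) * a j) := fun i j =>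
      h' _ (mul_mem (star_mem (ha i)) (ha j))
    simp only [hm]
    exact h.cp n a ξ ha
  · rw [h' a ha]; exact h.contractive a ha
  · obtain ⟨u, v, hu, hv, huv⟩ := h.normal ξ η
    exact ⟨u, v, hu, hv, fun a ha => by rw [h' a ha]; exact huv a ha⟩

theorem semi_TT : IsCPSemigroup AD (gen TT) := by
  refine ⟨fun s => (QQ_stoch s).ncp.congr fun a ha => gen_TT s a ha, fun a ha => rfl,
    fun s t a ha => ?_⟩
  have h1 : ∀ Q y, MM Q y ∈ AD := fun Q y => D_mem' _
  rw [gen_TT _ _ ha, gen_TT t a ha, gen_TT s _ (h1 _ _), ← MM_mul, QQ_add]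

section nodil

variable {K : Type*} [NormedAddCommGroup K] [InnerProductSpace ℂ K] [CompleteSpace K]

theorem adj_comp (V : HH →ₗᵢ[ℂ] K) :
    V.toContinuousLinearMap† ∘L V.toContinuousLinearMap = 1 := by
  ext x
  refine congrFun (congrArg _ ?_) _
  refine ext_inner_left ℂ fun y => ?_
  show ⟪y, (V.toContinuousLinearMap†) (V.toContinuousLinearMap x)⟫_ℂ = _
  rw [ContinuousLinearMap.adjoint_inner_right]
  exact V.inner_map_map y x

theorem up_mul (V : HH →ₗᵢ[ℂ] K) (a b : HH →L[ℂ] HH) : up V a * up V b = up V (a * b) := by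
  ext x
  show V (a ((V.toContinuousLinearMap†) (V (b ((V.toContinuousLinearMap†) x))))) = _
  have h : ∀ z, (V.toContinuousLinearMap†) (V z) = z := fun z =>
    congrArg (fun (y : HH →L[ℂ] HH) => y z) (adj_comp V)
  rw [h]
  rfl

theorem up_add (V : HH →ₗᵢ[ℂ] K) (a b : HH →L[ℂ] HH) : up V a + up V b = up V (a + b) := by
  ext x
  show V (a _) + V (b _) = V (a _ + b _)
  rw [map_add]

theorem up_smul (V : HH →ₗᵢ[ℂ] K) (c : ℂ) (b : HH →L[ℂ] HH) : c • up V b = up V (c • b) := by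
  ext x
  show c • V (b _) = V (c • b _)
  rw [map_smul]

theorem up_star (V : HH →ₗᵢ[ℂ] K) (a : HH →L[ℂ] HH) : star (up V a) = up V (star a) := by
  simp only [up, ContinuousLinearMap.star_eq_adjoint, ContinuousLinearMap.adjoint_comp,
    ContinuousLinearMap.adjoint_adjoint, ContinuousLinearMap.comp_assoc]

theorem up_zero (V : HH →ₗᵢ[ℂ] K) : up V 0 = 0 := by
  ext x
  show V 0 = 0
  exact map_zero _

theorem up_one (V : HH →ₗᵢ[ℂ] K) : up V 1 = proj V := rfl

theorem down_up (V : HH →ₗᵢ[ℂ] K) (a : HH →L[ℂ] HH) : down V (up V a) = a := by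
  ext x
  have h : ∀ z, (V.toContinuousLinearMap†) (V z) = z := fun z =>
    congrArg (fun (y : HH →L[ℂ] HH) => y z) (adj_comp V)
  show ((V.toContinuousLinearMap†) (V (a ((V.toContinuousLinearMap†) (V x))))) _ = _
  rw [h, h]

theorem up_down (V : HH →ₗᵢ[ℂ] K) (b : K →L[ℂ] K) : up V (down V b) = proj V * b * proj V := rfl

theorem up_mem {k : ℕ} {T : (Fin k → ℕ) → (HH →L[ℂ] HH) → (HH →L[ℂ] HH)} {V : HH →ₗᵢ[ℂ] K}
    {B : VonNeumannAlgebra K} {θ : (Fin k → ℕ) → (K →L[ℂ] K) → (K →L[ℂ] K)}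
    (h : IsDilation AD T V B θ) (a : HH →L[ℂ] HH) (ha : a ∈ AD) :
    up V a ∈ B := by
  obtain ⟨b, hb, hb'⟩ := (h.corner a).1 ha
  rw [← hb', up_down]
  exact mul_mem (mul_mem h.proj_mem hb) h.proj_mem

theorem up_sum (V : HH →ₗᵢ[ℂ] K) (f : Fin 8 → (HH →L[ℂ] HH)) :
    ∑ i, up V (f i) = up V (∑ i, f i) := by
  have : ∀ s : Finset (Fin 8), ∑ i ∈ s, up V (f i) = up V (∑ i ∈ s, f i) := by
    intro s
    induction s using Finset.induction_on with
    | empty => simp [up_zero]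
    | insert a s ha ih => rw [Finset.sum_insert ha, Finset.sum_insert ha, ih, up_add]
  exact this _

theorem gen_single (c : Fin 3) (x : HH →L[ℂ] HH) : gen TT (Pi.single c 1) x = TT c x := by
  fin_cases c <;> simp [gen]

theorem no_dil (V : HH →ₗᵢ[ℂ] K) (B : VonNeumannAlgebra K)
    (θ : (Fin 3 → ℕ) → (K →L[ℂ] K) → (K →L[ℂ] K))
    (h : IsDilation AD (gen TT) V B θ) : False := by
  have hu : ∀ f, up V (D f) ∈ B := fun f => up_mem h (D f) (D_mem' f)
  have hθm : ∀ s, ∀ x ∈ B, θ s x ∈ B := fun s x hx => (h.esemi.semi.ncp s).lin.mem x hx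
  -- the algebra of elements of `B`
  set e : Fin 8 → B.toStarSubalgebra := fun i => ⟨up V (D (Pi.single i 1)), hu _⟩ with he
  have hsum : ((∑ i, e i : B.toStarSubalgebra) : K →L[ℂ] K) = proj V := by
    have h1 : ((∑ i, e i : B.toStarSubalgebra) : K →L[ℂ] K)
        = ∑ i, up V (D (Pi.single i 1)) := by
      simp [he]
    rw [h1, up_sum, D_sum, ← up_one, ← D_one]
    congr 2
    ext j
    simp
  refine no_go (R := B.toStarSubalgebra) ?_
    (fun c x => ⟨θ (Pi.single c 1) x.1, hθm _ x.1 x.2⟩) ?_ ?_ ?_ ?_ e ?_ ?_ (fun c => PP c)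
    ?_ ?_ ?_ ?_ ?_ ?_ ?_ ?_ ?_ ?_ ?_ ?_ ?_ ?_ ?_ ?_
  · intro x hx
    apply Subtype.ext
    have h1 : star (x : K →L[ℂ] K) * (x : K →L[ℂ] K) = 0 := congrArg Subtype.val hx
    exact CStarRing.star_mul_self_eq_zero_iff _ |>.1 h1
  · intro c x y
    exact Subtype.ext ((h.esemi.semi.ncp _).lin.add x.1 x.2 y.1 y.2)
  · intro c x y; exact Subtype.ext (h.esemi.mul _ x.1 x.2 y.1 y.2)
  · intro c x; exact Subtype.ext (h.esemi.star _ x.1 x.2)
  · intro c d x
    have h1 := h.esemi.semi.add (Pi.single c 1) (Pi.single d 1) x.1 x.2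
    have h2 := h.esemi.semi.add (Pi.single d 1) (Pi.single c 1) x.1 x.2
    rw [add_comm] at h2
    exact Subtype.ext (h1.symm.trans h2)
  · intro i
    apply Subtype.ext
    show star (up V (D (Pi.single i 1))) = up V (D (Pi.single i 1))
    rw [up_star, D_star]
    congr 2
    ext j
    by_cases hij : j = i
    · subst hij; simp
    · simp [hij]
  · intro i j
    apply Subtype.ext
    show up V (D (Pi.single i 1)) * up V (D (Pi.single j 1)) = _
    rw [up_mul, D_mul]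
    by_cases hij : i = j
    · subst hij
      rw [if_pos rfl]
      show _ = up V (D (Pi.single i 1))
      congr 2
      ext k
      by_cases hk : k = i
      · subst hk; simp
      · simp [hk]
    · rw [if_neg hij]
      show _ = (0 : K →L[ℂ] K)
      rw [← up_zero V, ← D_zero]
      congr 2
      ext k
      by_cases hk : k = i
      · subst hk; simp [hij]
      · simp [hk]
  · intro c i; exact (PP_stoch c).row i
  · intro c j
    apply Subtype.ext
    have h1 := h.dil (Pi.single c 1) (D (Pi.single j 1)) (D_mem' _)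
    rw [gen_single, TT, MM_D] at h1
    show ((∑ i, e i : B.toStarSubalgebra) : K →L[ℂ] K)
      * (θ (Pi.single c 1) (up V (D (Pi.single j 1))) : K →L[ℂ] K)
      * ((∑ i, e i : B.toStarSubalgebra) : K →L[ℂ] K) = _
    rw [hsum, ← h1]
    have h2 : ((∑ i, PP c i j • e i : B.toStarSubalgebra) : K →L[ℂ] K)
        = ∑ i, up V (D (PP c i j • Pi.single i 1)) := by
      simp [he, ← D_smul, ← up_smul]
    rw [h2, up_sum, D_sum]
    congr 2
    ext k
    rw [Finset.sum_apply]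
    simp [Matrix.mulVec, dotProduct, Pi.single_apply]
  all_goals first
    | (intro j hj1 hj2
       simp only [PP_apply, tgt, row2, Matrix.cons_val]
       simp [hj1, hj2])
    | (simp only [PP_apply, tgt, row2, Matrix.cons_val]
       norm_num [Fin.ext_iff])
  intro h0
  have h3 : up V (D (Pi.single 0 1)) = 0 := congrArg Subtype.val h0
  have h4 := congrArg (down V) h3
  rw [down_up, ← up_zero V, down_up] at h4
  have h5 := congrArg (fun y : HH →L[ℂ] HH => (y (bv 0)) 0) h4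
  simp only [D_apply] at h5
  simp [bv] at h5

end nodil

end Pool.Agent.Y325.Dil
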